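import Pool.Agent.W912.StarPsi

/-!
# Star-Menger Isbell–Mrówka spaces: the normal and the metrically embeddable case

ZFC: a `Ψ`-space of cardinality at least `𝔡` which is normal, or which has a continuous map into
a metrizable space that is injective on the almost disjoint family (for instance when the family
is `ℝ`-embeddable, as for families of branches of a tree), is not star-Menger.

Idea of the proof: two rounds. First the neighbourhoods of the points `a` of the family are chosen
so small, measured in the metric space, that the distances are controlled by a dominating family
`g a`. A selection of finitely many members of each cover yields a sequence of compact sets
`K m` with few accumulation points. In the second round the neighbourhoods are chosen smaller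
than half of the distance of `a` to the compact set which covered it. The second selection gives
compact sets `K' i`, and the distances of the points of the sets `K' i` (`i ≤ m`) outside `K m`
to `K m` are bounded from below by a single sequence; this sequence would be an upper bound,
infinitely often, for every `g a` up to countably many.
-/

namespace Pool.Agent.Results.MP_bc3d1b_lc.EmbeddableOrNormal

open scoped Cardinal

open Pool.Agent.W912.StarPsi

/-- Let `A` be an almost disjoint family such that `Ψ(A)` has cardinality at least `𝔡`. If `Ψ(A)`
admits a continuous map into a metrizable space which is injective on `A`, or if `Ψ(A)` is normal,
then `Ψ(A)` is not star-Menger. -/
theorem result (A : Set (Set ℕ)) (_hA : IsAD A) (hcard : dominatingNumber ≤ #(Psi A))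
    (h : MetricEmbeddable A ∨ NormalSpace (Psi A)) : ¬ StarMenger (Psi A) := by
  rcases h with h | h
  · exact not_starMenger_of_embeddable h hcard
  · exact not_starMenger_of_embeddable (embeddable_of_normal h) hcard

end Pool.Agent.Results.MP_bc3d1b_lc.EmbeddableOrNormal
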